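import Pool.Agent.U243.AK.Main

/-!
# A new Tukey type of the almost-inclusion structure on weakly compact sets

If there is a coanalytic set `C` of reals with `|C| = ℵ₁ < 𝔠`, then there is a separable Banach
space `X`, not reflexive, such that the asymptotic structure `AK(B_X)` of the weakly compact subsets
of its closed unit ball, with the relations `K ≤_ε L ↔ K ⊆ L + ε B_X`, is Tukey equivalent to the
poset `[C]^{<ω}` of the finite subsets of `C`, and to none of `ω`, `ω^ω`, `K(ℚ)`, `[𝔠]^{<ω}`.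

The hypothesis holds in the extension of the constructible universe by `ℵ₂` Cohen reals (the
largest thin coanalytic set of `L` keeps its cardinality `ℵ₁` there, and `𝔠 = ℵ₂`), so that the
existence of such a space is consistent with `ZFC`.
-/

open Set Filter Topology

namespace Pool.Agent.Results.MP_65e9d7_lc.NewAsymptoticType

open Pool.Agent.Helper639.Tk Pool.Agent.U243.AK

/-- If `C` is a coanalytic subset of the Cantor space of cardinality `ℵ₁ < 𝔠`, then there is a
separable Banach space `X`, not reflexive, such that `AK(B_X)` is Tukey equivalent to `[C]^{<ω}` and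
to none of `ω`, `ω^ω`, `K(ℚ)`, `[𝔠]^{<ω}`. -/
theorem result (C : Set (ℕ → Bool)) (hC : MeasureTheory.AnalyticSet Cᶜ)
    (h1 : Cardinal.mk C = Cardinal.aleph 1) (h2 : Cardinal.aleph 1 < Cardinal.continuum.{0}) :
    ∃ (X : Type) (_ : NormedAddCommGroup X) (_ : NormedSpace ℝ X),
      CompleteSpace X ∧ TopologicalSpace.SeparableSpace X ∧
      ¬ Function.Surjective (NormedSpace.inclusionInDoubleDual ℝ X) ∧
      AsympEquiv (AKB X) (ofPoset (Finset C)) ∧
      ¬ AsympEquiv (AKB X) (ofPoset ℕ) ∧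
      ¬ AsympEquiv (AKB X) (ofPoset (ℕ → ℕ)) ∧
      ¬ AsympEquiv (AKB X) (ofPoset (TopologicalSpace.Compacts ℚ)) ∧
      ¬ AsympEquiv (AKB X) (ofPoset (Finset ℝ)) := by
  have hunc : Uncountable C := by
    rw [← Cardinal.aleph0_lt_mk_iff, h1, ← Cardinal.aleph_zero]
    exact Cardinal.aleph_lt_aleph.2 zero_lt_one
  have hφ : ∃ φ : (ℕ → ℕ) → (ℕ → Bool), Continuous φ ∧ Set.range φ = Cᶜ := by
    rw [MeasureTheory.AnalyticSet] at hC
    rcases hC with h | h
    · exfalso
      have h3 : C = Set.univ := by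
        rw [← compl_compl C, h, Set.compl_empty]
      rw [h3, Cardinal.mk_univ] at h1
      have h4 : Cardinal.mk (ℕ → Bool) = Cardinal.continuum := by
        rw [← Cardinal.power_def, Cardinal.mk_bool, Cardinal.mk_nat, Cardinal.two_power_aleph0]
      rw [h4] at h1
      exact h2.ne h1.symm
    · exact h
  obtain ⟨φ, hφc, hφr⟩ := hφ
  have hCe : C = (Set.range φ)ᶜ := by rw [hφr, compl_compl]
  subst hCe
  have hinf : ((Set.range φ)ᶜ : Set (ℕ → Bool)).Infinite := by
    intro hf
    have := hf.countable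
    exact (Set.countable_coe_iff.not.1 (not_countable_iff.2 hunc)) this
  have key1 := akb_le hφc (h1 ▸ h2) hinf
  have key2 := le_akb hφc (h1 ▸ h2)
  refine ⟨Pool.Agent.Helper639.Tk.X φ, inferInstance, inferInstance, inferInstance, separable_X, ?_,
    ⟨key1, key2⟩, ?_, ?_, ?_, ?_⟩
  · intro hrefl
    refine not_le_of_bdd (fun f => ⟨Set.univ, Set.infinite_univ, ?_⟩)
      (key2.trans (akb_le_of_reflexive hrefl))
    exact ⟨(), fun _ _ => le_rfl⟩
  · rintro ⟨h3, -⟩
    refine not_le_of_bdd (fun f => ?_) (key2.trans h3)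
    obtain ⟨S, hS, b, hb⟩ := infinite_bdd_nat (fun c (_ : ℕ) => f c)
    refine ⟨S, hS, b 0, ?_⟩
    rintro _ ⟨c, hc, rfl⟩
    exact hb ⟨c, hc, rfl⟩ 0
  · rintro ⟨h3, -⟩
    exact not_le_of_bdd (fun f => infinite_bdd_nat f) (key2.trans h3)
  · rintro ⟨h3, -⟩
    exact not_le_of_bdd (fun f => infinite_bdd_compacts f) (key2.trans h3)
  · rintro ⟨-, h3⟩
    exact not_finset_le h1 h2 (h3.trans key1)

end Pool.Agent.Results.MP_65e9d7_lc.NewAsymptoticType
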